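import Mathlib

/-! The action of the symmetric group on the edge variables of `K_n`, invariance of Hamiltonicity,
and averaging over the action. -/

set_option autoImplicit false

namespace Pool.Agent.MP_6b3410_lc.H9

open Finset

abbrev Edge (n : ℕ) := {p : Fin n × Fin n // p.1 < p.2}

/-- The graph encoded by the bits `x`. -/
def graphOf {n : ℕ} (x : Edge n → Bool) : SimpleGraph (Fin n) :=
  SimpleGraph.fromRel (fun i j : Fin n => ∃ h : i < j, x ⟨(i, j), h⟩ = true)

/-- The image of an edge under a permutation of the vertices. -/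
def actFun {n : ℕ} (σ : Equiv.Perm (Fin n)) (e : Edge n) : Edge n :=
  if h : σ e.1.1 < σ e.1.2 then ⟨(σ e.1.1, σ e.1.2), h⟩
  else ⟨(σ e.1.2, σ e.1.1), lt_of_le_of_ne (not_lt.mp h)
    (fun h' => (ne_of_lt e.2) (σ.injective h').symm)⟩

lemma actFun_one {n : ℕ} (e : Edge n) : actFun 1 e = e := by
  unfold actFun
  have : (1 : Equiv.Perm (Fin n)) e.1.1 < (1 : Equiv.Perm (Fin n)) e.1.2 := e.2
  rw [dif_pos this]
  rfl

lemma actFun_mul {n : ℕ} (σ τ : Equiv.Perm (Fin n)) (e : Edge n) :
    actFun (σ * τ) e = actFun σ (actFun τ e) := by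
  obtain ⟨⟨i, j⟩, hij⟩ := e
  apply Subtype.ext
  unfold actFun
  simp only [Equiv.Perm.mul_apply]
  by_cases h1 : τ i < τ j
  · by_cases h2 : σ (τ i) < σ (τ j)
    · simp [h1, h2]
    · simp [h1, h2]
  · have hne : σ (τ i) ≠ σ (τ j) := fun h =>
      (ne_of_lt hij) (τ.injective (σ.injective h))
    by_cases h2 : σ (τ i) < σ (τ j)
    · simp [h1, h2, not_lt.mpr h2.le]
    · have h3 : σ (τ j) < σ (τ i) := lt_of_le_of_ne (not_lt.mp h2) hne.symm
      simp [h1, h2, h3]

instance edgeAction (n : ℕ) : MulAction (Equiv.Perm (Fin n)) (Edge n) where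
  smul := actFun
  one_smul := actFun_one
  mul_smul := actFun_mul

lemma smul_def {n : ℕ} (σ : Equiv.Perm (Fin n)) (e : Edge n) : σ • e = actFun σ e := rfl

lemma graphOf_adj_lt {n : ℕ} (x : Edge n → Bool) (e : Edge n) :
    (graphOf x).Adj e.1.1 e.1.2 ↔ x e = true := by
  obtain ⟨⟨i, j⟩, hij⟩ := e
  simp only [graphOf, SimpleGraph.fromRel_adj]
  constructor
  · rintro ⟨_, h | h⟩
    · obtain ⟨_, h⟩ := h
      exact h
    · obtain ⟨h', _⟩ := h
      exact absurd hij (not_lt.mpr h'.le)
  · intro h
    exact ⟨ne_of_lt hij, Or.inl ⟨hij, h⟩⟩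

lemma graphOf_smul_adj_lt {n : ℕ} (σ : Equiv.Perm (Fin n)) (x : Edge n → Bool) (i j : Fin n)
    (hij : i < j) :
    (graphOf (fun e => x (σ • e))).Adj i j ↔ (graphOf x).Adj (σ i) (σ j) := by
  have h1 := graphOf_adj_lt (fun e => x (σ • e)) ⟨(i, j), hij⟩
  have h2 := graphOf_adj_lt x (σ • (⟨(i, j), hij⟩ : Edge n))
  simp only at h1
  rw [h1, ← h2, smul_def]
  unfold actFun
  split_ifs with h
  · rfl
  · exact (graphOf x).adj_comm _ _

lemma graphOf_smul_adj {n : ℕ} (σ : Equiv.Perm (Fin n)) (x : Edge n → Bool) (i j : Fin n) :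
    (graphOf (fun e => x (σ • e))).Adj i j ↔ (graphOf x).Adj (σ i) (σ j) := by
  rcases lt_trichotomy i j with h | h | h
  · exact graphOf_smul_adj_lt σ x i j h
  · subst h
    simp
  · rw [SimpleGraph.adj_comm, graphOf_smul_adj_lt σ x j i h, SimpleGraph.adj_comm]

lemma isHamiltonian_of_hom {α β : Type*} [Fintype α] [Fintype β] [DecidableEq α] [DecidableEq β]
    {G : SimpleGraph α} {H : SimpleGraph β} (f : G →g H) (hf : Function.Bijective f)
    (hG : G.IsHamiltonian) : H.IsHamiltonian := by
  intro hc
  have : Fintype.card α ≠ 1 := by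
    rw [Fintype.card_of_bijective hf]
    exact hc
  obtain ⟨a, p, hp⟩ := hG this
  exact ⟨f a, p.map f, hp.map hf⟩

/-- Hamiltonicity is invariant under relabelling the vertices. -/
theorem ham_smul {n : ℕ} (σ : Equiv.Perm (Fin n)) (x : Edge n → Bool) :
    (graphOf (fun e => x (σ • e))).IsHamiltonian ↔ (graphOf x).IsHamiltonian := by
  constructor
  · intro h
    exact isHamiltonian_of_hom (G := graphOf (fun e => x (σ • e))) (H := graphOf x)
      ⟨σ, fun {i j} hij => (graphOf_smul_adj σ x i j).mp hij⟩ σ.bijective h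
  · intro h
    refine isHamiltonian_of_hom (G := graphOf x) (H := graphOf (fun e => x (σ • e)))
      ⟨σ.symm, fun {i j} hij => (graphOf_smul_adj σ x _ _).mpr ?_⟩ σ.symm.bijective h
    simpa using hij

/-- The action on edges is transitive. -/
theorem exists_smul_eq {n : ℕ} (e e' : Edge n) : ∃ σ : Equiv.Perm (Fin n), σ • e = e' := by
  obtain ⟨⟨i, j⟩, hij⟩ := e
  obtain ⟨⟨k, l⟩, hkl⟩ := e'
  simp only at hij hkl
  have hne : i ≠ j := ne_of_lt hij
  have hne' : k ≠ l := ne_of_lt hkl
  refine ⟨Equiv.swap (Equiv.swap i k j) l * Equiv.swap i k, ?_⟩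
  have h1 : (Equiv.swap (Equiv.swap i k j) l * Equiv.swap i k) i = k := by
    simp only [Equiv.Perm.mul_apply, Equiv.swap_apply_left]
    apply Equiv.swap_apply_of_ne_of_ne
    · intro h
      have : Equiv.swap i k i = Equiv.swap i k j := by rw [← h]; simp
      exact hne ((Equiv.swap i k).injective this)
    · exact hne'
  have h2 : (Equiv.swap (Equiv.swap i k j) l * Equiv.swap i k) j = l := by
    simp only [Equiv.Perm.mul_apply, Equiv.swap_apply_left]
  apply Subtype.ext
  rw [smul_def]
  unfold actFun
  simp only [h1, h2]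
  rw [dif_pos hkl]

/-- The number of permutations carrying `e` to `e'`, times the number of edges, is `n!`. -/
theorem card_smul_eq {n : ℕ} (e e' : Edge n) :
    (univ.filter (fun σ : Equiv.Perm (Fin n) => σ • e = e')).card * Fintype.card (Edge n)
      = Fintype.card (Equiv.Perm (Fin n)) := by
  have key : ∀ f : Edge n, (univ.filter (fun σ : Equiv.Perm (Fin n) => σ • e = f)).card
      = (univ.filter (fun σ : Equiv.Perm (Fin n) => σ • e = e')).card := by
    intro f
    obtain ⟨τ, hτ⟩ := exists_smul_eq f e'
    apply card_bij (fun σ _ => τ * σ)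
    · intro σ hσ
      simp only [mem_filter, mem_univ, true_and] at hσ ⊢
      rw [mul_smul, hσ, hτ]
    · intro σ _ σ' _ h
      exact mul_left_cancel h
    · intro σ hσ
      simp only [mem_filter, mem_univ, true_and] at hσ
      refine ⟨τ⁻¹ * σ, ?_, by simp⟩
      simp only [mem_filter, mem_univ, true_and]
      rw [mul_smul, hσ, ← hτ, inv_smul_smul]
  have h := card_eq_sum_card_fiberwise (s := (univ : Finset (Equiv.Perm (Fin n))))
    (t := (univ : Finset (Edge n))) (f := fun σ => σ • e) (fun _ _ => mem_univ _)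
  rw [card_univ] at h
  rw [h, sum_congr rfl (fun f _ => key f)]
  simp [mul_comm]

/-- Averaging: for any family of (partially defined) edge occurrences `occ` and any family of
edges `rail`, some relabelling `σ` makes at most a `|rail| / C(n,2)` share of the occurrences hit
`σ • rail`. -/
theorem exists_perm_few_hits {n : ℕ} {κ β : Type*} [Fintype κ] [Fintype β]
    (occ : κ → Option (Edge n)) (rail : β → Edge n) :
    ∃ σ : Equiv.Perm (Fin n),
      (univ.filter (fun k : κ => ∃ q : β, occ k = some (σ • rail q))).card * Fintype.card (Edge n)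
        ≤ Fintype.card κ * Fintype.card β := by
  classical
  by_contra hcon
  push Not at hcon
  have h1 : ∑ σ : Equiv.Perm (Fin n),
      (univ.filter (fun k : κ => ∃ q : β, occ k = some (σ • rail q))).card * Fintype.card (Edge n)
      ≤ ∑ _σ : Equiv.Perm (Fin n), Fintype.card κ * Fintype.card β := by
    have hA : ∀ σ : Equiv.Perm (Fin n),
        (univ.filter (fun k : κ => ∃ q : β, occ k = some (σ • rail q))).card
          ≤ ∑ k : κ, ∑ q : β, if occ k = some (σ • rail q) then 1 else 0 := by
      intro σ
      rw [card_filter]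
      apply sum_le_sum
      intro k _
      split_ifs with h
      · obtain ⟨q, hq⟩ := h
        calc 1 = (if occ k = some (σ • rail q) then 1 else 0) := by rw [if_pos hq]
          _ ≤ _ := single_le_sum (f := fun q : β => if occ k = some (σ • rail q) then 1 else 0)
            (fun _ _ => Nat.zero_le _) (mem_univ q)
      · exact Nat.zero_le _
    have hB : ∀ (k : κ) (q : β),
        (∑ σ : Equiv.Perm (Fin n), if occ k = some (σ • rail q) then 1 else 0)
          * Fintype.card (Edge n) ≤ Fintype.card (Equiv.Perm (Fin n)) := by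
      intro k q
      rw [← card_filter]
      cases hk : occ k with
      | none => simp
      | some e =>
        rw [← card_smul_eq (rail q) e]
        apply le_of_eq
        congr 2
        ext σ
        simp [eq_comm]
    calc _ ≤ ∑ σ : Equiv.Perm (Fin n),
          (∑ k : κ, ∑ q : β, if occ k = some (σ • rail q) then 1 else 0)
            * Fintype.card (Edge n) :=
          sum_le_sum (fun σ _ => Nat.mul_le_mul_right _ (hA σ))
      _ = ∑ k : κ, ∑ q : β, (∑ σ : Equiv.Perm (Fin n),
            if occ k = some (σ • rail q) then 1 else 0) * Fintype.card (Edge n) := by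
          rw [← sum_mul, sum_comm]
          rw [sum_mul]
          apply sum_congr rfl
          intro k _
          rw [sum_comm, sum_mul]
      _ ≤ ∑ _k : κ, ∑ _q : β, Fintype.card (Equiv.Perm (Fin n)) :=
          sum_le_sum (fun k _ => sum_le_sum (fun q _ => hB k q))
      _ = _ := by simp; ring
  have h2 := sum_lt_sum_of_nonempty (s := (univ : Finset (Equiv.Perm (Fin n)))) univ_nonempty
    (fun σ _ => hcon σ)
  exact absurd h1 (not_le.mpr h2)

lemma card_edge (n : ℕ) : 2 * Fintype.card (Edge n) = n * (n - 1) := by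
  classical
  have h1 : Fintype.card (Edge n) = (univ.filter (fun p : Fin n × Fin n => p.1 < p.2)).card := by
    rw [Fintype.card_subtype]
  have h2 : (univ.filter (fun p : Fin n × Fin n => p.2 < p.1)).card
      = (univ.filter (fun p : Fin n × Fin n => p.1 < p.2)).card := by
    apply card_bij (fun p _ => p.swap)
    · intro p hp
      simpa using hp
    · intro p _ q _ h
      exact Prod.swap_injective h
    · intro p hp
      exact ⟨p.swap, by simpa using hp, by simp⟩
  have h3 : (univ : Finset (Fin n)).offDiag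
      = (univ.filter (fun p : Fin n × Fin n => p.1 < p.2))
        ∪ (univ.filter (fun p : Fin n × Fin n => p.2 < p.1)) := by
    ext p
    simp [mem_offDiag, lt_or_lt_iff_ne]
  have h4 : Disjoint (univ.filter (fun p : Fin n × Fin n => p.1 < p.2))
      (univ.filter (fun p : Fin n × Fin n => p.2 < p.1)) := by
    rw [disjoint_filter]
    intro p _ h
    exact not_lt.mpr h.le
  have h5 := offDiag_card (univ : Finset (Fin n))
  rw [h3, card_union_of_disjoint h4, h2, ← h1] at h5
  simp only [card_univ, Fintype.card_fin] at h5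
  rw [Nat.mul_sub_one, ← h5]
  ring

end Pool.Agent.MP_6b3410_lc.H9
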