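import Mathlib

/-! Nechiporuk-type counting for constraint networks with a tree decomposition. -/

set_option autoImplicit false
set_option linter.unusedSectionVars false

namespace Pool.Agent.MP_6b3410_lc.H9

open Finset

section core

variable {P Z Y : Type} (A : Type) [Fintype A]

/-- every member of the family is a relational image of one of few core functions -/
def Core (φ : P → Z → Y → Prop) (m : ℕ) : Prop :=
  ∃ C : Finset (Z → A → Prop), C.card ≤ m ∧
    ∀ h, ∃ c ∈ C, ∃ R : A → Y → Prop, ∀ z y, φ h z y ↔ ∃ a, c z a ∧ R a y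

def Good (φ : P → Z → Y → Prop) (l : ℕ) : Prop :=
  (l = 0 ∧ ∀ h z z' y, φ h z y → φ h z' y) ∨
    (1 ≤ l ∧ Core A φ ((2 ^ (Fintype.card A * Fintype.card A)) ^ (2 * l - 2)))

variable {A}

lemma Good.congr {φ ψ : P → Z → Y → Prop} {l : ℕ} (h : Good A φ l)
    (e : ∀ h z y, ψ h z y ↔ φ h z y) : Good A ψ l := by
  have : ψ = φ := by
    funext h z y
    exact propext (e h z y)
  rw [this]
  exact h

lemma Good.lin {Y' : Type} {φ : P → Z → Y → Prop} {l : ℕ} (hφ : Good A φ l)
    (Q : Y → Y' → Prop) : Good A (fun h z y => ∃ y', Q y' y ∧ φ h z y') l := by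
  rcases hφ with ⟨h0, h1⟩ | ⟨h0, C, hC, h1⟩
  · refine Or.inl ⟨h0, ?_⟩
    rintro h z z' y ⟨y', hq, hy⟩
    exact ⟨y', hq, h1 h z z' y' hy⟩
  · refine Or.inr ⟨h0, C, hC, fun h => ?_⟩
    obtain ⟨c, hc, R, hR⟩ := h1 h
    refine ⟨c, hc, fun a y => ∃ y', Q y' y ∧ R a y', fun z y => ?_⟩
    constructor
    · rintro ⟨y', hq, hy⟩
      obtain ⟨a, ha, hr⟩ := (hR z y').mp hy
      exact ⟨a, ha, y', hq, hr⟩
    · rintro ⟨a, ha, y', hq, hr⟩
      exact ⟨y', hq, (hR z y').mpr ⟨a, ha, hr⟩⟩

lemma Core.and_const {φ ψ : P → Z → Y → Prop} {m : ℕ} (hφ : Core A φ m)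
    (hψ : ∀ h z z' y, ψ h z y → ψ h z' y) : Core A (fun h z y => φ h z y ∧ ψ h z y) m := by
  obtain ⟨C, hC, h1⟩ := hφ
  refine ⟨C, hC, fun h => ?_⟩
  obtain ⟨c, hc, R, hR⟩ := h1 h
  refine ⟨c, hc, fun a y => R a y ∧ ∃ z, ψ h z y, fun z y => ?_⟩
  constructor
  · rintro ⟨h2, h3⟩
    obtain ⟨a, ha, hr⟩ := (hR z y).mp h2
    exact ⟨a, ha, hr, z, h3⟩
  · rintro ⟨a, ha, hr, z', h3⟩
    exact ⟨(hR z y).mpr ⟨a, ha, hr⟩, hψ h z' z y h3⟩

lemma Core.and {φ ψ : P → Z → Y → Prop} {m m' : ℕ} (hφ : Core A φ m) (hψ : Core A ψ m')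
    (π : Y → A) (h1 : ∀ h z y y', π y = π y' → φ h z y → φ h z y')
    (h2 : ∀ h z y y', π y = π y' → ψ h z y → ψ h z y') :
    Core A (fun h z y => φ h z y ∧ ψ h z y)
      (m * m' * (2 ^ (Fintype.card A * Fintype.card A)) ^ 2) := by
  classical
  obtain ⟨C, hC, h3⟩ := hφ
  obtain ⟨C', hC', h4⟩ := hψ
  let F : ((Z → A → Prop) × (Z → A → Prop)) × ((A → A → Prop) × (A → A → Prop)) → Z → A → Prop :=
    fun q z a => (∃ b, q.1.1 z b ∧ q.2.1 b a) ∧ (∃ b, q.1.2 z b ∧ q.2.2 b a)
  refine ⟨((C ×ˢ C') ×ˢ univ).image F, ?_, fun h => ?_⟩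
  · refine card_image_le.trans ?_
    rw [card_product, card_product, card_univ, Fintype.card_prod]
    simp only [Fintype.card_fun, Fintype.card_prop]
    rw [← pow_mul, sq]
    exact Nat.mul_le_mul_right _ (Nat.mul_le_mul hC hC')
  · obtain ⟨c, hc, R, hR⟩ := h3 h
    obtain ⟨c', hc', R', hR'⟩ := h4 h
    refine ⟨F ((c, c'), (fun b a => ∃ y, R b y ∧ π y = a, fun b a => ∃ y, R' b y ∧ π y = a)),
      mem_image_of_mem _ (by simp [hc, hc']), fun a y => π y = a, fun z y => ?_⟩
    constructor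
    · rintro ⟨h5, h6⟩
      obtain ⟨b, hb, hr⟩ := (hR z y).mp h5
      obtain ⟨b', hb', hr'⟩ := (hR' z y).mp h6
      exact ⟨π y, ⟨⟨b, hb, y, hr, rfl⟩, ⟨b', hb', y, hr', rfl⟩⟩, rfl⟩
    · rintro ⟨a, ⟨⟨b, hb, y1, hr, e1⟩, ⟨b', hb', y2, hr', e2⟩⟩, e⟩
      exact ⟨h1 h z y1 y (e1.trans e.symm) ((hR z y1).mpr ⟨b, hb, hr⟩),
        h2 h z y2 y (e2.trans e.symm) ((hR' z y2).mpr ⟨b', hb', hr'⟩)⟩

lemma Good.and {φ ψ : P → Z → Y → Prop} {l l' : ℕ} (hφ : Good A φ l) (hψ : Good A ψ l')
    (π : Y → A) (h1 : ∀ h z y y', π y = π y' → φ h z y → φ h z y')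
    (h2 : ∀ h z y y', π y = π y' → ψ h z y → ψ h z y') :
    Good A (fun h z y => φ h z y ∧ ψ h z y) (l + l') := by
  rcases hφ with ⟨h0, h3⟩ | ⟨h0, h3⟩ <;> rcases hψ with ⟨h0', h4⟩ | ⟨h0', h4⟩
  · refine Or.inl ⟨by omega, ?_⟩
    rintro h z z' y ⟨h5, h6⟩
    exact ⟨h3 h z z' y h5, h4 h z z' y h6⟩
  · subst h0
    refine Or.inr ⟨by omega, ?_⟩
    rw [zero_add]
    have := h4.and_const h3
    simpa only [and_comm] using this
  · subst h0'
    exact Or.inr ⟨by omega, h3.and_const h4⟩
  · refine Or.inr ⟨by omega, ?_⟩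
    have := h3.and h4 π h1 h2
    rw [← pow_add, ← pow_add] at this
    have e : 2 * l - 2 + (2 * l' - 2) + 2 = 2 * (l + l') - 2 := by omega
    rwa [e] at this

/-- a constraint that reads one bit of `z` -/
lemma good_leaf [Nontrivial A] (bit : Z → Bool) (R : Bool → Y → Prop) :
    Good A (fun (_ : P) z y => R (bit z) y) 1 := by
  classical
  obtain ⟨a0, a1, hne⟩ := exists_pair_ne A
  refine Or.inr ⟨le_rfl, {fun z a => a = if bit z then a1 else a0}, by simp, fun _ => ?_⟩
  refine ⟨_, mem_singleton_self _, fun a y => (a = a1 ∧ R true y) ∨ (a = a0 ∧ R false y),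
    fun z y => ?_⟩
  cases hb : bit z
  · simp [hne, hb]
  · simp [hne.symm, hb]

/-- the final count -/
lemma Good.count [Fintype P] [Nonempty A] {f : P → Z → Prop} {l : ℕ}
    (hf : Good A (fun h z (_ : Unit) => f h z) l) (hinj : Function.Injective f)
    (hP : 2 < Fintype.card P) :
    Fintype.card P ≤ (2 ^ (Fintype.card A * Fintype.card A)) ^ (2 * l) := by
  classical
  have hA : 1 ≤ Fintype.card A := Fintype.card_pos
  have hK : 2 ^ Fintype.card A ≤ 2 ^ (Fintype.card A * Fintype.card A) :=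
    Nat.pow_le_pow_right (by norm_num) (Nat.le_mul_of_pos_left _ hA)
  rcases hf with ⟨h0, h1⟩ | ⟨h0, C, hC, h1⟩
  · subst h0
    have : Function.Injective (fun h => ∃ z, f h z) := by
      intro h h' e
      apply hinj
      funext z
      simp only [eq_iff_iff] at e ⊢
      constructor
      · intro h2
        obtain ⟨z', h3⟩ := e.mp ⟨z, h2⟩
        exact h1 h' z' z () h3
      · intro h2
        obtain ⟨z', h3⟩ := e.mpr ⟨z, h2⟩
        exact h1 h z' z () h3
    have h2 := Fintype.card_le_of_injective _ this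
    simp only [Fintype.card_prop] at h2
    omega
  · let F : (Z → A → Prop) × (A → Prop) → Z → Prop := fun q z => ∃ a, q.1 z a ∧ q.2 a
    have h2 : (univ : Finset P).image f ⊆ (C ×ˢ univ).image F := by
      intro g hg
      obtain ⟨h, _, rfl⟩ := mem_image.mp hg
      obtain ⟨c, hc, R, hR⟩ := h1 h
      refine mem_image.mpr ⟨(c, fun a => R a ()), by simp [hc], ?_⟩
      funext z
      exact propext (hR z ()).symm
    have h3 := card_le_card h2
    rw [card_image_of_injective _ hinj, card_univ] at h3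
    refine h3.trans (card_image_le.trans ?_)
    rw [card_product, card_univ]
    simp only [Fintype.card_fun, Fintype.card_prop]
    calc C.card * 2 ^ Fintype.card A
        ≤ (2 ^ (Fintype.card A * Fintype.card A)) ^ (2 * l - 2)
          * 2 ^ (Fintype.card A * Fintype.card A) := Nat.mul_le_mul hC hK
      _ = (2 ^ (Fintype.card A * Fintype.card A)) ^ (2 * l - 2 + 1) := by rw [pow_succ]
      _ ≤ _ := Nat.pow_le_pow_right (by positivity) (by omega)

end core

section tree

variable {P Z V D : Type} [DecidableEq V]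

/-- dependence on the coordinates in `S` only -/
def Dep (φ : P → Z → (V → D) → Prop) (S : Finset V) : Prop :=
  ∀ h z y y', (∀ v ∈ S, y v = y' v) → φ h z y → φ h z y'

lemma exists_code [Nonempty D] {w : ℕ} (S : Finset V) (hS : S.card ≤ w) :
    ∃ π : (V → D) → (Fin w → D), ∀ y y', π y = π y' → ∀ v ∈ S, y v = y' v := by
  classical
  obtain ⟨d⟩ := ‹Nonempty D›
  refine ⟨fun y i => if h : i.val < S.card then y (S.equivFin.symm ⟨i.val, h⟩) else d, ?_⟩
  intro y y' e v hv
  have h1 := congrFun e ⟨(S.equivFin ⟨v, hv⟩).val, lt_of_lt_of_le (S.equivFin ⟨v, hv⟩).2 hS⟩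
  simpa using h1

lemma good_and_dep [Fintype D] [Nonempty D] {w : ℕ} {φ ψ : P → Z → (V → D) → Prop} {l l' : ℕ}
    (hφ : Good (Fin w → D) φ l) (hψ : Good (Fin w → D) ψ l') (S : Finset V) (hS : S.card ≤ w)
    (h1 : Dep φ S) (h2 : Dep ψ S) :
    Good (Fin w → D) (fun h z y => φ h z y ∧ ψ h z y) (l + l') := by
  obtain ⟨π, hπ⟩ := exists_code (D := D) S hS
  exact hφ.and hψ π (fun h z y y' e => h1 h z y y' (hπ y y' e))
    (fun h z y y' e => h2 h z y y' (hπ y y' e))

lemma good_forall [Fintype D] [Nonempty D] {w : ℕ} {κ : Type} [DecidableEq κ]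
    (χ : κ → P → Z → (V → D) → Prop) (l : κ → ℕ) (S : Finset V) (hS : S.card ≤ w)
    (F : Finset κ) (h1 : ∀ k ∈ F, Good (Fin w → D) (χ k) (l k)) (h2 : ∀ k ∈ F, Dep (χ k) S) :
    Good (Fin w → D) (fun h z y => ∀ k ∈ F, χ k h z y) (∑ k ∈ F, l k) := by
  induction F using Finset.induction_on with
  | empty => exact Or.inl ⟨by simp, by simp⟩
  | insert k F hk ih =>
    rw [sum_insert hk]
    have h3 := ih (fun j hj => h1 j (mem_insert_of_mem hj))
      (fun j hj => h2 j (mem_insert_of_mem hj))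
    have h4 : Dep (fun h z y => ∀ k ∈ F, χ k h z y) S := fun h z y y' e h5 j hj =>
      h2 j (mem_insert_of_mem hj) h z y y' e (h5 j hj)
    refine (good_and_dep (h1 k (mem_insert_self _ _)) h3 S hS (h2 k (mem_insert_self _ _))
      h4).congr ?_
    intro h z y
    simp

lemma leaf_step {ι : Type} (T : SimpleGraph ι) (hT : T.IsTree) (i p : ι)
    (hp : ∀ j, T.Adj i j → j = p) (k : ι) (hk : k ≠ i) :
    ∃ q : T.Walk i k, q.IsPath ∧ p ∈ q.support := by
  classical
  obtain ⟨q, hq⟩ := hT.connected.exists_isPath i k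
  refine ⟨q, hq, ?_⟩
  cases q with
  | nil => exact absurd rfl hk
  | cons h r =>
    have := hp _ h
    subst this
    simp

lemma rip_induce {ι : Type} (T : SimpleGraph ι) (S : Set ι) (bag : ι → Finset V)
    (hrip : ∀ (j k : ι) (q : T.Walk j k), q.IsPath → ∀ m ∈ q.support, bag j ∩ bag k ⊆ bag m) :
    ∀ (j k : S) (q : (T.induce S).Walk j k), q.IsPath → ∀ m ∈ q.support,
      bag j.1 ∩ bag k.1 ⊆ bag m.1 := by
  intro j k q hq m hm
  let f : T.induce S →g T := (SimpleGraph.Embedding.induce S).toHom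
  exact hrip (f j) (f k) (q.map f) (SimpleGraph.Walk.IsPath.map Subtype.val_injective hq) (f m)
    (by
      rw [SimpleGraph.Walk.support_map]
      exact List.mem_map_of_mem hm)

theorem tree_good [Fintype D] [Nonempty D] {w : ℕ} (N : ℕ) :
    ∀ (ι : Type) [Fintype ι], Fintype.card ι = N → ∀ (T : SimpleGraph ι), T.IsTree →
      ∀ (bag : ι → Finset V), (∀ i, (bag i).card ≤ w) →
      (∀ (j k : ι) (q : T.Walk j k), q.IsPath → ∀ m ∈ q.support, bag j ∩ bag k ⊆ bag m) →
      ∀ (φ : ι → P → Z → (V → D) → Prop) (l : ι → ℕ), (∀ i, Dep (φ i) (bag i)) →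
      (∀ i, Good (Fin w → D) (φ i) (l i)) →
      Good (Fin w → D) (fun h z (_ : Unit) => ∃ y, ∀ i, φ i h z y) (∑ i, l i) := by
  classical
  induction N with
  | zero =>
    intro ι _ hc T hT
    have := hT.connected.nonempty
    have := Fintype.card_pos (α := ι)
    omega
  | succ N ih =>
    intro ι _ hc T hT bag hw hrip φ l hdep hgood
    by_cases hs : Subsingleton ι
    · obtain ⟨i0⟩ := hT.connected.nonempty
      have e : ∑ i, l i = l i0 := by
        rw [Fintype.sum_subsingleton _ i0]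
      rw [e]
      refine ((hgood i0).lin (fun _ (_ : Unit) => True)).congr ?_
      intro h z _
      constructor
      · rintro ⟨y, hy⟩
        exact ⟨y, trivial, hy i0⟩
      · rintro ⟨y, _, hy⟩
        exact ⟨y, fun i => by rw [Subsingleton.elim i i0]; exact hy⟩
    · have hnt : Nontrivial ι := not_subsingleton_iff_nontrivial.mp hs
      obtain ⟨i, hi⟩ := hT.exists_vert_degree_one_of_nontrivial
      obtain ⟨p, hip, hp⟩ := SimpleGraph.degree_eq_one_iff_existsUnique_adj.mp hi
      have hpi : p ≠ i := hip.ne.symm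
      have hT' : (T.induce {i}ᶜ).IsTree :=
        ⟨hT.connected.induce_compl_singleton_of_degree_eq_one hi, hT.isAcyclic.induce _⟩
      have hc' : Fintype.card ({i}ᶜ : Set ι) = N := by
        rw [Fintype.card_compl_set]
        simp [hc]
      let ψ : P → Z → (V → D) → Prop := fun h z y =>
        ∃ y', (∀ v ∈ bag p, y' v = y v) ∧ φ i h z y'
      have hψ : Good (Fin w → D) ψ (l i) := (hgood i).lin
        (fun (y' y : V → D) => ∀ v ∈ bag p, y' v = y v)
      have hψd : Dep ψ (bag p) := by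
        rintro h z y y' e ⟨y1, h1, h2⟩
        exact ⟨y1, fun v hv => (h1 v hv).trans (e v hv), h2⟩
      have key := ih ({i}ᶜ : Set ι) hc' (T.induce {i}ᶜ) hT' (fun j => bag j.1) (fun j => hw j.1)
        (rip_induce T _ bag hrip)
        (fun j h z y => φ j.1 h z y ∧ (j.1 = p → ψ h z y))
        (fun j => l j.1 + if j.1 = p then l i else 0)
        (by
          intro j h z y y' e h1
          refine ⟨hdep j.1 h z y y' e h1.1, fun hj => ?_⟩
          exact hψd h z y y' (fun v hv => e v (by simpa [hj] using hv)) (h1.2 hj))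
        (by
          intro j
          by_cases hj : j.1 = p
          · simp only [hj, if_true]
            refine (good_and_dep (hgood p) hψ (bag p) (hw p) (hdep p) hψd).congr ?_
            intro h z y
            simp
          · simp only [hj, if_false, add_zero]
            refine (hgood j.1).congr ?_
            intro h z y
            simp)
      have hsum : ∑ j : ({i}ᶜ : Set ι), (l j.1 + if j.1 = p then l i else 0) = ∑ j, l j := by
        have h1 : ∑ j : ({i}ᶜ : Set ι), (l j.1 + if j.1 = p then l i else 0)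
            = ∑ j ∈ univ.erase i, (l j + if j = p then l i else 0) := by
          rw [← Finset.sum_subtype (univ.erase i) (p := fun j => j ∈ ({i}ᶜ : Set ι)) (by simp)
            (fun j => l j + if j = p then l i else 0)]
        rw [h1, sum_add_distrib, sum_ite_eq', if_pos (by simp [hpi]),
          ← add_sum_erase univ l (mem_univ i), add_comm]
      rw [hsum] at key
      refine key.congr ?_
      intro h z _
      constructor
      · rintro ⟨y, hy⟩
        exact ⟨y, fun j => ⟨hy j.1, fun _ => ⟨y, fun _ _ => rfl, hy i⟩⟩⟩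
      · rintro ⟨y, hy⟩
        obtain ⟨y', h1, h2⟩ := (hy ⟨p, by simpa using hpi⟩).2 rfl
        refine ⟨fun v => if v ∈ bag i then y' v else y v, fun j => ?_⟩
        by_cases hj : j = i
        · subst hj
          exact hdep j h z y' _ (fun v hv => by simp [hv]) h2
        · refine hdep j h z y _ (fun v hv => ?_) (hy ⟨j, by simpa using hj⟩).1
          by_cases hv' : v ∈ bag i
          · obtain ⟨q, hq, hpq⟩ := leaf_step T hT i p hp j hj
            have := hrip i j q hq p hpq (mem_inter.mpr ⟨hv', hv⟩)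
            simp [hv', h1 v this]
          · simp [hv']

end tree

end Pool.Agent.MP_6b3410_lc.H9
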