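import Mathlib

set_option autoImplicit false

namespace Pool.Agent.MP_6b3410_lc.H9

/-- `G` has treewidth at most `t`: there is a finite tree `T` with a bag of at most `t + 1`
vertices of `G` at each node, such that every vertex and every edge of `G` lies in some bag, and
`bag j ∩ bag k ⊆ bag i` whenever `i` lies on the path of `T` from `j` to `k`. -/
def TreewidthLE {V : Type} [DecidableEq V] (G : SimpleGraph V) (t : ℕ) : Prop :=
  ∃ (m : ℕ) (T : SimpleGraph (Fin m)) (bag : Fin m → Finset V),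
    T.IsTree ∧ (∀ i, (bag i).card ≤ t + 1) ∧ (∀ v, ∃ i, v ∈ bag i) ∧
    (∀ u v, G.Adj u v → ∃ i, u ∈ bag i ∧ v ∈ bag i) ∧
    ∀ (j k : Fin m) (q : T.Walk j k), q.IsPath → ∀ i ∈ q.support, bag j ∩ bag k ⊆ bag i

end Pool.Agent.MP_6b3410_lc.H9
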