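import Pool.Agent.MP_6b3410_lc.H75.Spec2

/-!
The moment method for a random cubic form.
-/

namespace Pool.Agent.MP_6b3410_lc.H9

open Classical Finset Pool.Agent.MP_6b3410_lc.H75

namespace HardB

lemma chi_add (a b : ZMod 2) : chi (a + b) = chi a * chi b := by
  have h : ∀ x : ZMod 2, x = 0 ∨ x = 1 := by decide
  have h1 : (1 + 1 : ZMod 2) = 0 := by decide
  rcases h a with rfl | rfl <;> rcases h b with rfl | rfl <;> simp [chi, h1]

lemma chi_sum {ι : Type} (s : Finset ι) (f : ι → ZMod 2) :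
    chi (∑ i ∈ s, f i) = ∏ i ∈ s, chi (f i) := by
  induction s using Finset.induction_on with
  | empty => simp [chi]
  | insert a s ha ih => rw [sum_insert ha, prod_insert ha, chi_add, ih]

lemma sum_chi (w : ZMod 2) : ∑ x : ZMod 2, chi (x * w) = if w = 0 then 2 else 0 := by
  have : (univ : Finset (ZMod 2)) = {0, 1} := by decide
  rw [this, sum_pair (by decide)]
  by_cases h : w = 0 <;> simp [chi, h]
  norm_num

lemma sum_chi_dot {s : ℕ} (w : Fin s → ZMod 2) :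
    ∑ p : Fin s → ZMod 2, chi (∑ k, p k * w k) = if w = 0 then 2 ^ s else 0 := by
  simp only [chi_sum]
  rw [← Fintype.piFinset_univ, ← prod_univ_sum (fun _ => univ) fun k x => chi (x * w k)]
  simp only [sum_chi]
  split_ifs with h
  · simp [h]
  · obtain ⟨k, hk⟩ := Function.ne_iff.1 h
    exact prod_eq_zero (mem_univ k) (if_neg hk)

/-- the vectors orthogonal to a set -/
noncomputable def perp {s : ℕ} (P : Finset (Fin s → ZMod 2)) : Finset (Fin s → ZMod 2) :=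
  univ.filter fun q => ∀ p ∈ P, ∑ k, p k * q k = 0

lemma card_perp {s : ℕ} (P : Finset (Fin s → ZMod 2)) : P.card * (perp P).card ≤ 2 ^ s := by
  have h1 : ∑ p : Fin s → ZMod 2, (∑ q ∈ perp P, chi (∑ k, p k * q k)) ^ 2
      = 2 ^ s * (perp P).card := by
    simp only [sq, sum_mul_sum, ← chi_add, ← sum_add_distrib, ← mul_add]
    rw [sum_comm, mul_comm, ← nsmul_eq_mul, ← sum_const]
    refine sum_congr rfl fun q hq => ?_
    rw [sum_comm, sum_congr rfl fun q' _ => sum_chi_dot (fun k => q k + q' k),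
      sum_eq_single_of_mem q hq]
    · exact if_pos (funext fun k => CharTwo.add_self_eq_zero _)
    · exact fun q' _ h => if_neg fun e => h (funext fun k =>
        (CharTwo.add_eq_zero.1 (congrFun e k)).symm)
  have h2 : (P.card : ℝ) * (perp P).card ^ 2
      ≤ ∑ p : Fin s → ZMod 2, (∑ q ∈ perp P, chi (∑ k, p k * q k)) ^ 2 := by
    rw [← nsmul_eq_mul, ← sum_const]
    refine le_trans (sum_le_sum fun p hp => le_of_eq ?_)
      (sum_le_sum_of_subset_of_nonneg (subset_univ P) fun _ _ _ => sq_nonneg _)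
    rw [sum_congr rfl fun q hq => by rw [(mem_filter.1 hq).2 p hp]]
    simp [chi]
  have h3 : (0 : ℝ) < (perp P).card := by
    exact_mod_cast card_pos.2 ⟨0, mem_filter.2 ⟨mem_univ _, by simp⟩⟩
  rw [h1, sq, ← mul_assoc] at h2
  exact_mod_cast le_of_mul_le_mul_right h2 h3

/-- families of vectors supported on `F` whose rows lie in `P` -/
noncomputable def rows {n s : ℕ} (F : Finset (Fin n)) (P : Finset (Fin s → ZMod 2)) :
    Finset (Fin s → Fin n → ZMod 2) :=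
  (Fintype.piFinset fun _ => cube F).filter fun A => ∀ i ∈ F, (fun k => A k i) ∈ P

lemma card_rows {n s : ℕ} (F : Finset (Fin n)) (P : Finset (Fin s → ZMod 2)) :
    (rows F P).card ≤ P.card ^ F.card := by
  have := card_le_card_of_injOn (s := rows F P) (t := Fintype.piFinset fun _ : F => P)
    (fun A i k => A k i.1) (fun A hA => by
      simpa using fun i hi => (mem_filter.1 hA).2 i hi) (fun A hA B hB e => by
      funext k i
      by_cases hi : i ∈ F
      · exact congrFun (congrFun e ⟨i, hi⟩) k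
      · rw [(mem_filter.1 (Fintype.mem_piFinset.1 (mem_filter.1 hA).1 k)).2 i hi,
          (mem_filter.1 (Fintype.mem_piFinset.1 (mem_filter.1 hB).1 k)).2 i hi])
  simpa using this

lemma card_all {n : ℕ} (s : ℕ) (F : Finset (Fin n)) :
    (Fintype.piFinset fun _ : Fin s => cube F).card ≤ (2 ^ s) ^ F.card := by
  have := card_rows (s := s) F univ
  rw [rows, filter_true_of_mem fun _ _ _ _ => mem_univ _] at this
  simpa using this

/-- all entries of the tensor vanish -/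
def Deg {n s : ℕ} (F₁ F₂ : Finset (Fin n)) (A B : Fin s → Fin n → ZMod 2) : Prop :=
  ∀ i ∈ F₁, ∀ j ∈ F₂, ∑ k, A k i * B k j = 0

lemma card_deg {n : ℕ} (s : ℕ) (F₁ F₂ : Finset (Fin n)) (h : F₁.card = F₂.card) :
    (((Fintype.piFinset fun _ : Fin s => cube F₁) ×ˢ (Fintype.piFinset fun _ : Fin s => cube F₂)).filter
      fun x => Deg F₁ F₂ x.1 x.2).card ≤ 2 ^ 2 ^ s * (2 ^ s) ^ F₁.card := by
  refine (card_le_card (t := univ.biUnion fun P => rows F₁ P ×ˢ rows F₂ (perp P)) ?_).trans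
    (card_biUnion_le.trans ?_)
  · rintro ⟨A, B⟩ hx
    obtain ⟨h1, h2⟩ := mem_filter.1 hx
    obtain ⟨h3, h4⟩ := mem_product.1 h1
    refine mem_biUnion.2 ⟨F₁.image fun i k => A k i, mem_univ _, mem_product.2
      ⟨mem_filter.2 ⟨h3, fun i hi => mem_image_of_mem _ hi⟩, mem_filter.2 ⟨h4, fun j hj =>
        mem_filter.2 ⟨mem_univ _, fun p hp => ?_⟩⟩⟩⟩
    obtain ⟨i, hi, rfl⟩ := mem_image.1 hp
    exact h2 i hi j hj
  · refine (sum_le_card_nsmul _ _ ((2 ^ s) ^ F₁.card) fun P _ => ?_).trans (by simp)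
    rw [card_product]
    refine (Nat.mul_le_mul (card_rows _ _) (card_rows _ _)).trans ?_
    rw [← h, ← mul_pow]
    exact Nat.pow_le_pow_left (card_perp P) _

variable {n M c₀ : ℕ} {Enc : Encoder n M}

lemma step (hD : Dist c₀ Enc) {x : Fin n → ZMod 2} (hx : x ≠ 0) (f : Fin M → ℕ) (a b : ℕ)
    (h : ∀ p, Enc x p ≠ 0 → a ≤ b * f p) : M * a ≤ c₀ * b * ∑ p, f p := by
  refine (Nat.mul_le_mul_right a (hD x hx)).trans ?_
  rw [mul_assoc, mul_assoc, mul_sum]
  refine Nat.mul_le_mul_left _ ?_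
  rw [← smul_eq_mul, ← sum_const]
  exact (sum_le_sum fun p hp => h p (mem_filter.1 hp).2).trans
    (sum_le_sum_of_subset (subset_univ _))

/-- the sum of the permanents -/
def th {s : ℕ} (Enc : Encoder n M) (A B : Fin s → Fin n → ZMod 2) (v : Fin n → ZMod 2)
    (p : Fin M × Fin M × Fin M) : ZMod 2 := ∑ k, per (Enc (A k)) (Enc (B k)) (Enc v) p

lemma card_th (hD : Dist c₀ Enc) {s : ℕ} {F₁ F₂ : Finset (Fin n)} {v : Fin n → ZMod 2}
    (hd : Disjoint F₁ F₂) (hv : v ≠ 0) (v1 : ∀ i ∈ F₁, v i = 0) (v2 : ∀ i ∈ F₂, v i = 0)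
    {A B : Fin s → Fin n → ZMod 2} (hA : ∀ k, A k ∈ cube F₁) (hB : ∀ k, B k ∈ cube F₂)
    (h : ¬ Deg F₁ F₂ A B) : M ^ 3 ≤ c₀ ^ 3 * (univ.filter fun p => th Enc A B v p ≠ 0).card := by
  simp only [Deg, not_forall] at h
  obtain ⟨i, -, j, hj, h⟩ := h
  obtain ⟨l, hl⟩ := Function.ne_iff.1 hv
  have a1 : ∀ k, A k j = 0 := fun k => (mem_filter.1 (hA k)).2 j (disjoint_right.1 hd hj)
  have a2 : ∀ k, A k l = 0 := fun k => (mem_filter.1 (hA k)).2 l fun e => hl (v1 l e)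
  have a3 : ∀ k, B k l = 0 := fun k => (mem_filter.1 (hB k)).2 l fun e => hl (v2 l e)
  have key := step hD (x := ∑ k, B k j • A k) (fun e => h (by
      simpa [mul_comm] using congrFun e i))
    (fun p => ∑ q, ∑ r, if th Enc A B v (p, q, r) ≠ 0 then 1 else 0) (M * (M * 1)) (c₀ * (c₀ * 1))
    fun p hp => step hD (x := ∑ k, (Enc (A k) p • B k + Enc (B k) p • A k)) (fun e => hp (by
        simpa [a1, mul_comm] using congrFun e j)) _ (M * 1) (c₀ * 1)
      fun q hq => step hD (x := ∑ k, ((Enc (A k) p * Enc (B k) q + Enc (B k) p * Enc (A k) q) • v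
          + (Enc (A k) p * Enc v q + Enc v p * Enc (A k) q) • B k
          + (Enc (B k) p * Enc v q + Enc v p * Enc (B k) q) • A k)) (fun e => hq (by
          have := congrFun e l
          simp only [Finset.sum_apply, Pi.add_apply, Pi.smul_apply, a2, a3, smul_eq_mul, mul_zero,
            add_zero, Pi.zero_apply, ← sum_mul] at this
          simpa using (mul_eq_zero.1 this).resolve_right hl)) _ 1 1
        fun r hr => by
          rw [if_pos, one_mul]
          refine fun e => hr ?_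
          rw [← e, th]
          simp only [map_sum, map_add, map_smul, Finset.sum_apply, Pi.add_apply, Pi.smul_apply,
            smul_eq_mul, per]
          exact sum_congr rfl fun k _ => by ring
  rw [card_filter, Fintype.sum_prod_type]
  simp only [Fintype.sum_prod_type]
  calc M ^ 3 = M * (M * (M * 1)) := by ring
    _ ≤ _ := key
    _ = _ := by ring

lemma sum_mons {s : ℕ} (T : ℕ) (A B : Fin s → Fin n → ZMod 2) (v : Fin n → ZMod 2) :
    ∑ ξ : Mons M T, ∏ k, chi (tri Enc ξ (A k) (B k) v)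
      = (2 * (univ.filter fun p => th Enc A B v p = 0).card) ^ T := by
  have h1 : ∀ ξ : Mons M T, ∏ k, chi (tri Enc ξ (A k) (B k) v)
      = ∏ t, chi ((ξ t).2 * th Enc A B v (ξ t).1) := fun ξ => by
    rw [← chi_sum, ← chi_sum]
    simp only [tri, th, mul_sum]
    rw [sum_comm]
  simp only [h1]
  rw [← Fintype.piFinset_univ, ← prod_univ_sum (fun _ => univ)
    fun _ (x : (Fin M × Fin M × Fin M) × ZMod 2) => chi (x.2 * th Enc A B v x.1), prod_const,
    card_univ, Fintype.card_fin, Fintype.sum_prod_type]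
  simp only [sum_chi]
  rw [← sum_filter, sum_const, nsmul_eq_mul, mul_comm]

lemma small (hc : 0 < c₀) {N Z : ℕ} (h : N ≤ c₀ ^ 3 * (N - Z)) (hZ : Z ≤ N) (m : ℕ) :
    (2 * Z : ℝ) ^ (c₀ ^ 3 * m) ≤ (2 * N) ^ (c₀ ^ 3 * m) / 2 ^ m := by
  have c1 : (1 : ℝ) ≤ (c₀ ^ 3 : ℕ) := by exact_mod_cast Nat.one_le_pow _ _ hc
  have h1 : (Z : ℝ) ≤ N * (1 - 1 / (c₀ ^ 3 : ℕ)) := by
    have : (N : ℝ) ≤ (c₀ ^ 3 : ℕ) * (N - Z) := by exact_mod_cast h
    rw [mul_sub, mul_one, mul_one_div, le_sub_comm, div_le_iff₀ (by linarith), mul_comm]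
    exact this
  have h2 : (1 - 1 / (c₀ ^ 3 : ℕ) : ℝ) ^ c₀ ^ 3 ≤ 1 / 2 := by
    refine (Real.one_sub_div_pow_le_exp_neg c1).trans ?_
    rw [Real.exp_neg, one_div]
    exact inv_anti₀ two_pos (by linarith [Real.add_one_le_exp 1])
  have h3 : (0 : ℝ) ≤ 1 - 1 / (c₀ ^ 3 : ℕ) := sub_nonneg.2 ((div_le_one (by linarith)).2 c1)
  calc (2 * Z : ℝ) ^ (c₀ ^ 3 * m) ≤ (2 * N * (1 - 1 / (c₀ ^ 3 : ℕ))) ^ (c₀ ^ 3 * m) :=
        pow_le_pow_left₀ (by positivity) (by linarith) _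
    _ ≤ (2 * N) ^ (c₀ ^ 3 * m) * (1 / 2) ^ m := by
        rw [mul_pow, pow_mul (1 - _ : ℝ)]
        exact mul_le_mul_of_nonneg_left (pow_le_pow_left₀ (by positivity) h2 _) (by positivity)
    _ = _ := by rw [one_div_pow, mul_one_div]

lemma moment (hc : 0 < c₀) (hD : Dist c₀ Enc) {F₁ F₂ : Finset (Fin n)} {v : Fin n → ZMod 2}
    (hd : Disjoint F₁ F₂) (hh : F₁.card = F₂.card) (hv : v ≠ 0) (v1 : ∀ i ∈ F₁, v i = 0)
    (v2 : ∀ i ∈ F₂, v i = 0) {s m : ℕ} (hs : s * F₁.card ≤ m) :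
    ∑ ξ : Mons M (c₀ ^ 3 * m), (∑ a ∈ cube F₁, ∑ b ∈ cube F₂, chi (tri Enc ξ a b v)) ^ s
      ≤ (2 * (M ^ 3 : ℕ)) ^ (c₀ ^ 3 * m) * ((2 ^ 2 ^ s + 1) * (2 ^ s) ^ F₁.card) := by
  set W : ℝ := (2 * (M ^ 3 : ℕ)) ^ (c₀ ^ 3 * m) with hW
  set S := (Fintype.piFinset fun _ : Fin s => cube F₁) ×ˢ (Fintype.piFinset fun _ : Fin s => cube F₂)
    with hS
  have h1 : ∀ ξ : Mons M (c₀ ^ 3 * m), (∑ a ∈ cube F₁, ∑ b ∈ cube F₂, chi (tri Enc ξ a b v)) ^ s
      = ∑ x ∈ S, ∏ k, chi (tri Enc ξ (x.1 k) (x.2 k) v) := fun ξ => by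
    rw [hS, sum_product, sum_pow']
    exact sum_congr rfl fun A _ => prod_univ_sum _ fun k b => chi (tri Enc ξ (A k) b v)
  simp only [h1]
  rw [sum_comm]
  simp only [sum_mons]
  have hN : Fintype.card (Fin M × Fin M × Fin M) = M ^ 3 := by simp [pow_succ, mul_assoc]
  have hZ : ∀ x : (Fin s → Fin n → ZMod 2) × (Fin s → Fin n → ZMod 2),
      (univ.filter fun p => th Enc x.1 x.2 v p = 0).card ≤ M ^ 3 := fun x =>
    hN ▸ card_le_univ _
  have W0 : 0 ≤ W := by positivity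
  have h2 : ∀ x ∈ S, (2 * ((univ.filter fun p => th Enc x.1 x.2 v p = 0).card : ℝ)) ^ (c₀ ^ 3 * m)
      ≤ W * (if Deg F₁ F₂ x.1 x.2 then 1 else 0) + W / (2 ^ s) ^ F₁.card := by
    intro x hx
    split_ifs with h
    · rw [mul_one]
      refine le_add_of_le_of_nonneg (pow_le_pow_left₀ (by positivity) ?_ _) (by positivity)
      exact mul_le_mul_of_nonneg_left (by exact_mod_cast hZ x) two_pos.le
    · rw [mul_zero, zero_add]
      have h3 := card_th hD hd hv v1 v2 (Fintype.mem_piFinset.1 (mem_product.1 hx).1)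
        (Fintype.mem_piFinset.1 (mem_product.1 hx).2) h
      have h4 := card_filter_add_card_filter_not (s := univ) fun p => th Enc x.1 x.2 v p = 0
      rw [card_univ, hN] at h4
      refine (small hc (h3.trans (Nat.mul_le_mul_left _ (Nat.eq_sub_of_add_eq' h4).le)) (hZ x) m).trans ?_
      rw [← pow_mul]
      exact div_le_div_of_nonneg_left W0 (by positivity) (pow_le_pow_right₀ one_le_two hs)
  refine (sum_le_sum h2).trans ?_
  rw [sum_add_distrib, ← mul_sum, sum_boole, sum_const, nsmul_eq_mul, add_mul, mul_add, one_mul]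
  refine add_le_add (mul_le_mul_of_nonneg_left ?_ W0) ?_
  · exact_mod_cast card_deg s F₁ F₂ hh
  · have h5 : (S.card : ℝ) ≤ (2 ^ s) ^ F₁.card * (2 ^ s) ^ F₁.card := by
      rw [hS, card_product]
      exact_mod_cast Nat.mul_le_mul (card_all s F₁) (hh ▸ card_all s F₂)
    refine (mul_le_mul_of_nonneg_right h5 (by positivity)).trans_eq ?_
    field_simp

end HardB

open HardB

theorem hardB : HardBStmt := by
  intro c₀ hc
  refine ⟨c₀ ^ 3 * 10, fun γ hγ => ⟨2 ^ (2 * (⌈4 / γ⌉₊ + 1)) + 1, fun n hn M Enc h₀ hM hD hh => ?_⟩⟩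
  rw [mul_assoc]
  by_contra hcon
  set W : ℝ := (2 * (M ^ 3 : ℕ)) ^ (c₀ ^ 3 * (10 * n)) with hW
  have W0 : 0 < W := by positivity
  set Adm := (univ : Finset (Finset (Fin n) × Finset (Fin n) × (Fin n → ZMod 2))).filter
    fun τ => Disjoint τ.1 τ.2.1 ∧ τ.1.card = τ.2.1.card ∧ h₀ ≤ τ.1.card ∧ τ.2.2 ≠ 0 ∧
      (∀ i ∈ τ.1, τ.2.2 i = 0) ∧ ∀ i ∈ τ.2.1, τ.2.2 i = 0 with hAdm
  set g : Mons M (c₀ ^ 3 * (10 * n)) → Finset (Fin n) × Finset (Fin n) × (Fin n → ZMod 2) → ℝ :=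
    fun ξ τ => ((∑ a ∈ cube τ.1, ∑ b ∈ cube τ.2.1, chi (tri Enc ξ a b τ.2.2)) ^ 2 / 8 ^ τ.1.card)
      ^ (4 * n / τ.1.card + 1) with hg
  have h1 : ∀ ξ, 1 ≤ ∑ τ ∈ Adm, g ξ τ := fun ξ => by
    have h2 : ¬ Good Enc ξ h₀ := fun h => hcon ⟨ξ, h⟩
    simp only [Good, not_forall, not_le] at h2
    obtain ⟨F₁, F₂, v, a1, a2, a3, a4, a5, a6, a7⟩ := h2
    refine le_trans ?_ (single_le_sum (f := g ξ) (fun τ _ => by positivity)
      (a := (F₁, F₂, v)) (mem_filter.2 ⟨mem_univ _, a1, a2, a3, a4, a5, a6⟩))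
    exact one_le_pow₀ ((one_le_div (by positivity)).2 a7.le)
  have n0 : 0 < n := lt_of_lt_of_le (Nat.succ_pos _) hn
  have h2 : ∀ τ ∈ Adm, ∑ ξ, g ξ τ ≤ W * ((2 ^ 2 ^ (2 * (⌈4 / γ⌉₊ + 1)) + 1) / 2 ^ (4 * n)) := by
    rintro ⟨F₁, F₂, v⟩ hτ
    obtain ⟨a1, a2, a3, a4, a5, a6⟩ := (mem_filter.1 hτ).2
    dsimp only at a1 a2 a3 a4 a5 a6
    have b1 : γ * n ≤ F₁.card := hh.trans (by exact_mod_cast a3)
    have b2 : (0 : ℝ) < F₁.card := lt_of_lt_of_le (by positivity) b1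
    have b3 : 0 < F₁.card := by exact_mod_cast b2
    have b4 : F₁.card ≤ n := by simpa using card_le_univ F₁
    have b5 : 4 * n / F₁.card ≤ ⌈4 / γ⌉₊ := by
      have : ((4 * n / F₁.card : ℕ) : ℝ) ≤ ⌈4 / γ⌉₊ := by
        refine Nat.cast_div_le.trans (le_trans ?_ (Nat.le_ceil _))
        rw [div_le_div_iff₀ b2 hγ]
        push_cast
        linarith
      exact_mod_cast this
    have b6 := Nat.div_mul_le_self (4 * n) F₁.card
    have b7 := Nat.lt_mul_div_succ (4 * n) b3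
    set s' := 4 * n / F₁.card + 1 with hs'
    have b8 := moment hc hD a1 a2 a4 a5 a6 (s := 2 * s') (m := 10 * n) (by
      rw [hs', mul_assoc, add_mul]; omega)
    simp only [hg, div_pow, ← pow_mul]
    rw [← sum_div, div_le_iff₀ (by positivity)]
    refine b8.trans ?_
    rw [mul_assoc]
    refine mul_le_mul_of_nonneg_left ?_ W0.le
    have e : (8 : ℝ) ^ (F₁.card * s') = 2 ^ (F₁.card * s') * (2 ^ (2 * s')) ^ F₁.card := by
      rw [← pow_mul, ← pow_add, show (8 : ℝ) = 2 ^ 3 by norm_num, ← pow_mul]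
      congr 1
      ring
    rw [e, ← mul_assoc]
    refine mul_le_mul_of_nonneg_right ?_ (by positivity)
    rw [div_mul_eq_mul_div, le_div_iff₀ (by positivity)]
    exact mul_le_mul (add_le_add (pow_le_pow_right₀ one_le_two
      (Nat.pow_le_pow_right two_pos (by omega))) le_rfl) (pow_le_pow_right₀ one_le_two b7.le)
      (by positivity) (by positivity)
  have h3 : (Adm.card : ℝ) ≤ 2 ^ (3 * n) := by
    have := card_le_univ Adm
    simp only [Fintype.card_prod, Fintype.card_finset, Fintype.card_fin, Fintype.card_fun,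
      ZMod.card] at this
    rw [show 3 * n = n + (n + n) by ring, pow_add, pow_add]
    exact_mod_cast this
  have h4 : W ≤ ∑ ξ, ∑ τ ∈ Adm, g ξ τ := by
    refine le_trans (le_of_eq ?_) (sum_le_sum fun ξ _ => h1 ξ)
    simp [hW, pow_succ, mul_comm, mul_assoc]
  rw [sum_comm] at h4
  have h5 := h4.trans (sum_le_card_nsmul _ _ _ h2)
  rw [nsmul_eq_mul, mul_left_comm, le_mul_iff_one_le_right W0] at h5
  have h6 := h5.trans (mul_le_mul_of_nonneg_right h3 (by positivity))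
  rw [← mul_div_assoc, one_le_div (by positivity), show 4 * n = 3 * n + n by ring, pow_add,
    mul_le_mul_iff_right₀ (by positivity)] at h6
  have h7 : (2 : ℝ) ^ (2 ^ (2 * (⌈4 / γ⌉₊ + 1)) + 1) ≤ 2 ^ n := pow_le_pow_right₀ one_le_two hn
  have h8 : (1 : ℝ) < 2 ^ 2 ^ (2 * (⌈4 / γ⌉₊ + 1)) := one_lt_pow₀ one_lt_two (by positivity)
  rw [pow_succ] at h7
  linarith

end Pool.Agent.MP_6b3410_lc.H9
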