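import Mathlib
import Pool.Agent.MP_6b3410_lc.H9.Defs
import Pool.Agent.MP_6b3410_lc.H9.Sym
import Pool.Agent.MP_6b3410_lc.H9.Count
import Pool.Agent.MP_6b3410_lc.H19.Gadget

/-! The size-treewidth tradeoff for Hamiltonicity, from the indirect addressing gadget. -/

set_option autoImplicit false

namespace Pool.Agent.MP_6b3410_lc.H9

open Finset

section circuit

variable {I : Type} {s : ℕ} (a b : Fin s → I ⊕ Fin s) (op : Fin s → Bool → Bool → Bool)
  (guess : Finset (Fin s)) (o : Fin s)

def inp (k : Fin s × Bool) : I ⊕ Fin s := if k.2 then a k.1 else b k.1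

def comp (side : Bool) (d : Bool × Bool) : Bool := if side then d.1 else d.2

def valf (y : Fin s → Bool × Bool) (g : Fin s) : Bool :=
  if g ∈ guess then (y g).1 else op g (y g).1 (y g).2

def cons (x : I → Bool) (y : Fin s → Bool × Bool) : Option (Fin s × Bool) → Prop
  | none => valf op guess y o = true
  | some k => k.1 ∉ guess → comp k.2 (y k.1) = Sum.elim x (valf op guess y) (inp a b k)

lemma accept_iff (x : I → Bool) :
    (∃ val : Fin s → Bool, (∀ g, g ∉ guess →
        val g = op g (Sum.elim x val (a g)) (Sum.elim x val (b g))) ∧ val o = true) ↔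
      ∃ y, ∀ k, cons a b op guess o x y k := by
  constructor
  · rintro ⟨val, h1, h2⟩
    have e : valf op guess (fun g => if g ∈ guess then (val g, val g)
        else (Sum.elim x val (a g), Sum.elim x val (b g))) = val := by
      funext g
      by_cases hg : g ∈ guess
      · simp [valf, hg]
      · simp [valf, hg, ← h1 g hg]
    refine ⟨fun g => if g ∈ guess then (val g, val g)
        else (Sum.elim x val (a g), Sum.elim x val (b g)), fun k => ?_⟩
    rcases k with _ | ⟨g, side⟩
    · simp only [cons, e, h2]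
    · simp only [cons, e]
      intro hg
      cases side <;> simp [comp, inp, hg]
  · rintro ⟨y, hy⟩
    refine ⟨valf op guess y, fun g hg => ?_, hy none⟩
    have h1 := hy (some (g, true)) hg
    have h2 := hy (some (g, false)) hg
    simp only [comp, inp, if_true, Bool.false_eq_true, if_false] at h1 h2
    rw [← h1, ← h2]
    simp [valf, hg]

def occ : Option (Fin s × Bool) → Option I
  | none => none
  | some k => (inp a b k).getLeft?

lemma exists_node {t : ℕ}
    (htw : TreewidthLE (SimpleGraph.fromRel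
      (fun g j : Fin s => a g = Sum.inr j ∨ b g = Sum.inr j)) t) :
    ∃ (m : ℕ) (T : SimpleGraph (Fin m)) (bag : Fin m → Finset (Fin s))
      (node : Option (Fin s × Bool) → Fin m),
      T.IsTree ∧ (∀ i, (bag i).card ≤ t + 1) ∧
      (∀ (j k : Fin m) (q : T.Walk j k), q.IsPath → ∀ i ∈ q.support, bag j ∩ bag k ⊆ bag i) ∧
      ∀ k x y y', (∀ v ∈ bag (node k), y v = y' v) → cons a b op guess o x y k →
        cons a b op guess o x y' k := by
  obtain ⟨m, T, bag, h1, h2, h3, h4, h5⟩ := htw
  have key : ∀ k : Option (Fin s × Bool), ∃ i : Fin m, ∀ x y y', (∀ v ∈ bag i, y v = y' v) →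
      cons a b op guess o x y k → cons a b op guess o x y' k := by
    rintro (_ | ⟨g, side⟩)
    · obtain ⟨i, hi⟩ := h3 o
      refine ⟨i, fun x y y' e => ?_⟩
      simp only [cons, valf, e o hi, imp_self]
    · rcases hk : inp a b (g, side) with e0 | j
      · obtain ⟨i, hi⟩ := h3 g
        refine ⟨i, fun x y y' e => ?_⟩
        simp only [cons, hk, e g hi, Sum.elim_inl, imp_self]
      · have : ∃ i, g ∈ bag i ∧ j ∈ bag i := by
          by_cases hgj : g = j
          · subst hgj
            obtain ⟨i, hi⟩ := h3 g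
            exact ⟨i, hi, hi⟩
          · apply h4
            rw [SimpleGraph.fromRel_adj]
            refine ⟨hgj, Or.inl ?_⟩
            cases side
            · exact Or.inr (by simpa [inp] using hk)
            · exact Or.inl (by simpa [inp] using hk)
        obtain ⟨i, hi, hj⟩ := this
        refine ⟨i, fun x y y' e => ?_⟩
        simp only [cons, hk, e g hi, Sum.elim_inr, valf, e j hj, imp_self]
  choose node hnode using key
  exact ⟨m, T, bag, node, h1, h2, h5, fun k x y y' => hnode k x y y'⟩

/-- Nechiporuk's bound for circuits of treewidth `t`. -/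
theorem nech_count {t : ℕ}
    (htw : TreewidthLE (SimpleGraph.fromRel
      (fun g j : Fin s => a g = Sum.inr j ∨ b g = Sum.inr j)) t)
    {P Z : Type} [Fintype P] (hP : 2 < Fintype.card P) (X : P → Z → I → Bool) (B : I → Prop)
    [DecidablePred fun k : Option (Fin s × Bool) => ∃ e, B e ∧ occ a b k = some e]
    (h1 : ∀ e, B e → ∀ h h' z, X h z e = X h' z e) (h2 : ∀ e, ¬ B e → ∀ h z z', X h z e = X h z' e)
    (hinj : Function.Injective fun h z => ∃ y, ∀ k, cons a b op guess o (X h z) y k) :
    Fintype.card P ≤ 2 ^ (16 ^ (t + 1) * (2 *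
      (univ.filter fun k : Option (Fin s × Bool) => ∃ e, B e ∧ occ a b k = some e).card)) := by
  classical
  obtain ⟨m, T, bag, node, hT, hw, hrip, hdep⟩ := exists_node a b op guess o htw
  obtain ⟨h0⟩ : Nonempty P := Fintype.card_pos_iff.mp (by omega)
  let l : Option (Fin s × Bool) → ℕ := fun k => if ∃ e, B e ∧ occ a b k = some e then 1 else 0
  have hleaf : ∀ k, Good (Fin (t + 1) → Bool × Bool)
      (fun h z y => cons a b op guess o (X h z) y k) (l k) := by
    rintro (_ | ⟨g, side⟩)
    · exact Or.inl ⟨by simp [l, occ], fun h z z' y hy => hy⟩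
    · rcases hk : inp a b (g, side) with e | j
      · by_cases he : B e
        · have : l (some (g, side)) = 1 := by simp [l, occ, hk, he]
          rw [this]
          refine (good_leaf (P := P) (fun z => X h0 z e)
            (fun c (y : Fin s → Bool × Bool) => g ∉ guess → comp side (y g) = c)).congr ?_
          intro h z y
          simp only [cons, hk, Sum.elim_inl, h1 e he h h0 z]
        · refine Or.inl ⟨by simp [l, occ, hk, he], fun h z z' y hy => ?_⟩
          simpa only [cons, hk, Sum.elim_inl, h2 e he h z z'] using hy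
      · refine Or.inl ⟨by simp [l, occ, hk], fun h z z' y hy => ?_⟩
        simpa only [cons, hk, Sum.elim_inr] using hy
  have key := tree_good (P := P) (Z := Z) (D := Bool × Bool) (w := t + 1) m (Fin m) (by simp) T hT
    bag hw hrip
    (fun i h z y => ∀ k ∈ univ.filter (fun k => node k = i), cons a b op guess o (X h z) y k)
    (fun i => ∑ k ∈ univ.filter (fun k => node k = i), l k)
    (by
      intro i h z y y' e hy k hk
      have hk' : node k = i := by simpa using hk
      exact hdep k _ y y' (by rw [hk']; exact e) (hy k hk))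
    (by
      intro i
      apply good_forall (fun k h z y => cons a b op guess o (X h z) y k) l (bag i) (hw i) _
        (fun k _ => hleaf k)
      intro k hk h z y y' e hy
      have hk' : node k = i := by simpa using hk
      exact hdep k _ y y' (by rw [hk']; exact e) hy)
  rw [sum_fiberwise] at key
  have key' : Good (Fin (t + 1) → Bool × Bool)
      (fun h z (_ : Unit) => ∃ y, ∀ k, cons a b op guess o (X h z) y k) (∑ k, l k) := by
    refine key.congr ?_
    intro h z _
    constructor
    · rintro ⟨y, hy⟩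
      exact ⟨y, fun i k _ => hy k⟩
    · rintro ⟨y, hy⟩
      exact ⟨y, fun k => hy (node k) k (by simp)⟩
  have h3 := key'.count hinj hP
  have h4 : Fintype.card (Fin (t + 1) → Bool × Bool) * Fintype.card (Fin (t + 1) → Bool × Bool)
      = 16 ^ (t + 1) := by
    simp only [Fintype.card_fun, Fintype.card_prod, Fintype.card_bool, Fintype.card_fin]
    rw [← mul_pow]
    norm_num
  rw [h4, ← pow_mul] at h3
  rw [card_filter]
  exact h3

end circuit

theorem nat_bound (r n : ℕ) (hr : 1 ≤ r) (hn : 200 * (4 ^ r + 1 * r) ≤ n)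
    (s t : ℕ) (a b : Fin s → Edge n ⊕ Fin s) (op : Fin s → Bool → Bool → Bool)
    (guess : Finset (Fin s)) (o : Fin s)
    (htw : TreewidthLE (SimpleGraph.fromRel
      (fun g j : Fin s => a g = Sum.inr j ∨ b g = Sum.inr j)) t)
    (hF : ∀ x : Edge n → Bool, (graphOf x).IsHamiltonian ↔
      ∃ val : Fin s → Bool, (∀ g, g ∉ guess →
        val g = op g (Sum.elim x val (a g)) (Sum.elim x val (b g))) ∧ val o = true) :
    16 ^ r * Fintype.card (Edge n) ≤ 16 ^ (t + 1) * (96 * s * r) := by
  classical
  obtain ⟨rail, hinj, hrho⟩ := H19.gadget r 1 n one_pos hn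
  choose rho hrho using hrho
  obtain ⟨σ, hσ⟩ := exists_perm_few_hits (n := n) (occ a b) rail
  let X : ((H19.Ad r → Bool) → Bool) → (H19.Ad r × Fin 1 → Bool) → Edge n → Bool := fun h z e =>
    if he : ∃ q, σ • (rail q : Edge n) = e then (z he.choose.1 == H19.sgn he.choose)
    else rho h (σ⁻¹ • e)
  have hX : ∀ h z, (∃ y, ∀ k, cons a b op guess o (X h z) y k) ↔
      h (fun i => H19.par fun j => z (i, j)) = true := by
    intro h z
    rw [← accept_iff, ← hF, ← ham_smul σ]
    refine hrho h z (fun e => X h z (σ • e)) ?_ ?_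
    · intro q
      have he : ∃ q', σ • (rail q' : Edge n) = σ • (rail q : Edge n) := ⟨_, rfl⟩
      have := hinj (MulAction.injective σ he.choose_spec)
      simp only [X, dif_pos he, this]
    · intro e he
      have he' : ¬ ∃ q', σ • (rail q' : Edge n) = σ • (e : Edge n) := by
        rintro ⟨q', hq⟩
        exact he ⟨q', MulAction.injective σ hq⟩
      simp only [X, dif_neg he', inv_smul_smul]
  have hcard : Fintype.card ((H19.Ad r → Bool) → Bool) = 2 ^ (16 ^ r) := by
    simp only [Fintype.card_fun, Fintype.card_bool, Fintype.card_fin, Fintype.card_prod]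
    rw [pow_mul]
    norm_num
  have h4 : 2 ≤ 16 ^ r := by
    calc 2 ≤ 16 ^ 1 := by norm_num
      _ ≤ _ := Nat.pow_le_pow_right (by norm_num) hr
  have key := nech_count a b op guess o htw (P := (H19.Ad r → Bool) → Bool)
    (Z := H19.Ad r × Fin 1 → Bool)
    (by
      rw [hcard]
      calc 2 < 2 ^ 2 := by norm_num
        _ ≤ _ := Nat.pow_le_pow_right (by norm_num) h4)
    X (fun e => ∃ q, σ • (rail q : Edge n) = e)
    (by
      intro e he h h' z
      simp only [X, dif_pos he])
    (by
      intro e he h z z'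
      simp only [X, dif_neg he])
    (by
      intro h h' e
      funext α
      have := congrFun e (fun p => α p.1)
      have e2 : (fun i => H19.par fun _ : Fin 1 => α i) = α := by
        funext i
        cases hi : α i <;> simp [H19.par]
      simp only [hX, eq_iff_iff, e2] at this
      exact Bool.eq_iff_iff.mpr this)
  rw [hcard] at key
  have key' := (Nat.pow_le_pow_iff_right (by norm_num)).mp key
  have e1 : (univ.filter fun k : Option (Fin s × Bool) =>
      ∃ e, (∃ q, σ • (rail q : Edge n) = e) ∧ occ a b k = some e)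
      = univ.filter fun k : Option (Fin s × Bool) =>
        ∃ q, occ a b k = some (σ • (rail q : Edge n)) := by
    ext k
    simp only [mem_filter, mem_univ, true_and]
    constructor
    · rintro ⟨e, ⟨q, rfl⟩, h⟩
      exact ⟨q, h⟩
    · rintro ⟨q, h⟩
      exact ⟨_, ⟨q, rfl⟩, h⟩
  rw [e1] at key'
  simp only [Fintype.card_option, Fintype.card_prod, Fintype.card_fin, Fintype.card_bool] at hσ
  have hs : 1 ≤ s := o.pos
  calc 16 ^ r * Fintype.card (Edge n)
      ≤ 16 ^ (t + 1) * (2 * (univ.filter fun k : Option (Fin s × Bool) =>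
          ∃ q, occ a b k = some (σ • (rail q : Edge n))).card) * Fintype.card (Edge n) :=
        Nat.mul_le_mul_right _ key'
    _ = 16 ^ (t + 1) * (2 * ((univ.filter fun k : Option (Fin s × Bool) =>
          ∃ q, occ a b k = some (σ • (rail q : Edge n))).card * Fintype.card (Edge n))) := by ring
    _ ≤ 16 ^ (t + 1) * (2 * ((s * 2 + 1) * (2 * 2 * r * 1 * (2 * 2)))) :=
        Nat.mul_le_mul_left _ (Nat.mul_le_mul_left _ hσ)
    _ ≤ _ := Nat.mul_le_mul_left _ (by nlinarith)

theorem real_bound :
    ∃ c : ℝ, 0 < c ∧ ∃ n₀ : ℕ, ∀ n : ℕ, n₀ ≤ n →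
      ∀ (s t : ℕ) (a b : Fin s → Edge n ⊕ Fin s) (op : Fin s → Bool → Bool → Bool)
        (guess : Finset (Fin s)) (o : Fin s),
        TreewidthLE (SimpleGraph.fromRel
          (fun g j : Fin s => a g = Sum.inr j ∨ b g = Sum.inr j)) t →
        (∀ x : Edge n → Bool, (graphOf x).IsHamiltonian ↔
          ∃ val : Fin s → Bool, (∀ g, g ∉ guess →
            val g = op g (Sum.elim x val (a g)) (Sum.elim x val (b g))) ∧ val o = true) →
        c * (n : ℝ) ^ 4 / (16 ^ t * Real.log n) ≤ (s : ℝ) := by
  refine ⟨1 / (1600 ^ 2 * 4 * 16 * 96 * 2), by positivity, 1600, ?_⟩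
  intro n hn s t a b op guess o htw hF
  obtain ⟨r, hr⟩ : ∃ r, r = Nat.log 4 (n / 400) := ⟨_, rfl⟩
  have hq : 4 ≤ n / 400 := by omega
  have h1 : 4 ^ r ≤ n / 400 := by
    rw [hr]
    exact Nat.pow_log_le_self 4 (by omega)
  have h2 : n / 400 < 4 ^ (r + 1) := by
    rw [hr]
    exact Nat.lt_pow_succ_log_self (by norm_num) _
  have hr1 : 1 ≤ r := by
    by_contra h
    have : r = 0 := by omega
    subst this
    omega
  have h5 : r < 4 ^ r := Nat.lt_pow_self (by norm_num)
  have key := nat_bound r n hr1 (by omega) s t a b op guess o htw hF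
  have h6 := card_edge n
  have hn2 : 2 ≤ n := by omega
  have h7 : n * n ≤ 4 * Fintype.card (Edge n) := by
    have : n ≤ 2 * (n - 1) := by omega
    nlinarith
  have h8 : n * n ≤ 1600 ^ 2 * 16 ^ r := by
    have e : (16 : ℕ) ^ r = 4 ^ r * 4 ^ r := by rw [← mul_pow]; norm_num
    have h9 : n ≤ 1600 * 4 ^ r := by
      rw [pow_succ] at h2
      omega
    calc n * n ≤ (1600 * 4 ^ r) * (1600 * 4 ^ r) := Nat.mul_le_mul h9 h9
      _ = _ := by rw [e]; ring
  have h9 : n ^ 4 ≤ 1600 ^ 2 * 4 * (16 ^ (t + 1) * (96 * s * r)) := by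
    calc n ^ 4 = (n * n) * (n * n) := by ring
      _ ≤ (1600 ^ 2 * 16 ^ r) * (4 * Fintype.card (Edge n)) := Nat.mul_le_mul h8 h7
      _ = 1600 ^ 2 * 4 * (16 ^ r * Fintype.card (Edge n)) := by ring
      _ ≤ _ := Nat.mul_le_mul_left _ key
  have h10 : (r : ℝ) ≤ 2 * Real.log n := by
    have h11 : 2 ^ r ≤ n :=
      (Nat.pow_le_pow_left (by norm_num) r).trans (h1.trans (Nat.div_le_self _ _))
    have h12 : Real.log ((2 : ℝ) ^ r) ≤ Real.log n :=
      Real.log_le_log (by positivity) (by exact_mod_cast h11)
    rw [Real.log_pow] at h12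
    have := Real.log_two_gt_d9
    have hr0 : (0 : ℝ) ≤ r := Nat.cast_nonneg _
    nlinarith
  have hlog : 0 < Real.log n := Real.log_pos (by exact_mod_cast hn2)
  have h13 : (n : ℝ) ^ 4 ≤ 1600 ^ 2 * 4 * (16 ^ (t + 1) * (96 * s * r)) := by
    exact_mod_cast h9
  rw [div_le_iff₀ (by positivity), one_div, inv_mul_le_iff₀ (by positivity)]
  have hs0 : (0 : ℝ) ≤ s := Nat.cast_nonneg _
  calc (n : ℝ) ^ 4 ≤ 1600 ^ 2 * 4 * (16 ^ (t + 1) * (96 * s * r)) := h13
    _ ≤ 1600 ^ 2 * 4 * (16 ^ (t + 1) * (96 * s * (2 * Real.log n))) := by gcongr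
    _ = _ := by ring

end Pool.Agent.MP_6b3410_lc.H9
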